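import Pool.Agent.HP42.NC.Gen
import Pool.Agent.HP42.NC.Grow

/-!
# Near coincidences: bases for which the asymptotic fails although they are multiplicatively independent

The conjecture that `α`, `β` are multiplicatively independent iff the number of pairs with
`|α ^ n - β ^ m| ≤ x` is asymptotic to `(log x) ^ 2 / (log |α| log |β|)`, which is quoted in the problem
file as open, is false, even for real bases; the asymptotic fails for generic real bases and, in every
neighbourhood of `π`, for bases with irrational logarithm and finitely many pairs for every `x`.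
-/

set_option autoImplicit false
open Filter Topology Set Asymptotics

namespace Pool.Agent.Results.MP_606be1_nt.GenericBasesFail

/-- the pairs of natural numbers `(n, m)` with `|α ^ n - β ^ m| ≤ x` -/
def pairs (α β : ℂ) (x : ℝ) : Set (ℕ × ℕ) := {p | ‖α ^ p.1 - β ^ p.2‖ ≤ x}

/-- `α` and `β` are multiplicatively independent -/
def MultIndep (α β : ℂ) : Prop := ∀ r s : ℤ, α ^ r * β ^ s = 1 → r = 0 ∧ s = 0

/-- the asymptotic formula; Q1 is the case `α = π`, `β = e` -/
def Formula (α β : ℂ) : Prop :=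
  (fun x : ℝ => (((pairs α β x).ncard : ℕ) : ℝ)) ~[atTop]
    fun x : ℝ => Real.log x ^ 2 / (Real.log ‖α‖ * Real.log ‖β‖)

theorem pairs_real (a b x : ℝ) : pairs a b x = {p : ℕ × ℕ | |a ^ p.1 - b ^ p.2| ≤ x} := by
  unfold pairs
  ext p
  rw [Set.mem_setOf_eq, Set.mem_setOf_eq, ← Complex.ofReal_pow, ← Complex.ofReal_pow,
    ← Complex.ofReal_sub, Complex.norm_real, Real.norm_eq_abs]

theorem multIndep_of (a b : ℝ) (hb : 0 < b) (h : ∀ r s : ℤ, a ^ r = b ^ s → r = 0 ∧ s = 0) :
    MultIndep a b := by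
  intro r s hrs
  have h1 : a ^ r * b ^ s = 1 := by exact_mod_cast hrs
  have h2 : a ^ r = b ^ (-s) := by
    rw [zpow_neg]
    exact eq_inv_of_mul_eq_one_left h1
  obtain ⟨h3, h4⟩ := h r (-s) h2
  exact ⟨h3, by omega⟩

/-- finiteness implies multiplicative independence -/
theorem multIndep_of_finite (a b : ℝ) (ha : 1 < a) (hb : 1 < b) (h : (pairs a b 0).Finite) : MultIndep a b := by
  have ha0 : 0 < a := by linarith
  have hb0 : 0 < b := by linarith
  have hla : 0 < Real.log a := Real.log_pos ha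
  have hlb : 0 < Real.log b := Real.log_pos hb
  -- there is no relation with positive exponents
  have key : ∀ r s : ℕ, 0 < r → a ^ r ≠ b ^ s := by
    intro r s hr he
    apply h.not_infinite
    refine Set.infinite_of_injective_forall_mem (f := fun k : ℕ => (k * r, k * s)) ?_ ?_
    · intro k l hkl
      have := (Prod.ext_iff.1 hkl).1
      simp only at this
      exact Nat.eq_of_mul_eq_mul_right hr this
    · intro k
      rw [pairs_real, Set.mem_setOf_eq]
      simp only
      rw [mul_comm k r, mul_comm k s, pow_mul, pow_mul, he, sub_self, abs_zero]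
  apply multIndep_of a b hb0
  intro r s hrs
  have h1 : (r : ℝ) * Real.log a = s * Real.log b := by
    have := congrArg Real.log hrs
    rwa [Real.log_zpow, Real.log_zpow] at this
  have hr : r = 0 := by
    by_contra hr0
    rcases lt_or_gt_of_ne hr0 with hneg | hpos
    · -- both exponents negative
      have hs : s < 0 := by
        have : (s : ℝ) * Real.log b < 0 := by
          rw [← h1]; exact mul_neg_of_neg_of_pos (by exact_mod_cast hneg) hla
        have h2 : (s : ℝ) < 0 := by
          by_contra h3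
          have := mul_nonneg (not_lt.1 h3) hlb.le
          linarith
        exact_mod_cast h2
      obtain ⟨u, hu⟩ := Int.eq_ofNat_of_zero_le (show 0 ≤ -r by omega)
      obtain ⟨v, hv⟩ := Int.eq_ofNat_of_zero_le (show 0 ≤ -s by omega)
      apply key u v (by omega)
      have h2 : a ^ (-r) = b ^ (-s) := by rw [zpow_neg, zpow_neg, hrs]
      rw [hu, hv] at h2
      exact_mod_cast h2
    · have hs : 0 ≤ s := by
        have : 0 < (s : ℝ) * Real.log b := by
          rw [← h1]; exact mul_pos (by exact_mod_cast hpos) hla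
        have h2 : 0 < (s : ℝ) := by
          by_contra h3
          have := mul_nonpos_of_nonpos_of_nonneg (not_lt.1 h3) hlb.le
          linarith
        exact_mod_cast h2.le
      obtain ⟨u, hu⟩ := Int.eq_ofNat_of_zero_le hpos.le
      obtain ⟨v, hv⟩ := Int.eq_ofNat_of_zero_le hs
      apply key u v (by omega)
      rw [hu, hv] at hrs
      exact_mod_cast hrs
  refine ⟨hr, ?_⟩
  rw [hr] at h1
  push_cast at h1
  rw [zero_mul] at h1
  have := h1.symm
  rcases mul_eq_zero.1 this with h2 | h2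
  · exact_mod_cast h2
  · exact absurd h2 hlb.ne'

/-- many pairs: the formula fails -/
theorem not_formula (a b : ℝ) (h : ∀ k : ℕ, 1 ≤ k → k ≤ (pairs a b k).ncard) : ¬ Formula a b := by
  intro hF
  have h1 := hF.isBigO
  have h2 : (fun x : ℝ => Real.log x ^ 2 / (Real.log ‖(a : ℂ)‖ * Real.log ‖(b : ℂ)‖)) =o[atTop] (id : ℝ → ℝ) := by
    have h3 : (fun x : ℝ => Real.log x ^ 2) =o[atTop] (id : ℝ → ℝ) := Real.isLittleO_pow_log_id_atTop
    have h4 := h3.const_mul_left (Real.log ‖(a : ℂ)‖ * Real.log ‖(b : ℂ)‖)⁻¹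
    refine h4.congr_left fun x => ?_
    rw [div_eq_mul_inv, mul_comm]
  have h3 := h1.trans_isLittleO h2
  have h4 := h3.def (show (0 : ℝ) < 1 / 2 by norm_num)
  have h5 := tendsto_natCast_atTop_atTop.eventually h4
  obtain ⟨k, hk, hk1⟩ := (h5.and (eventually_ge_atTop 1)).exists
  have h6 := h k hk1
  have h7 : (k : ℝ) ≤ ((pairs a b k).ncard : ℝ) := by exact_mod_cast h6
  have h8 : (1 : ℝ) ≤ k := by exact_mod_cast hk1
  simp only [id, Real.norm_eq_abs] at hk
  rw [abs_of_nonneg (by positivity), abs_of_nonneg (by positivity)] at hk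
  linarith

/-- **Theorem.** (1) The conjecture quoted in the problem file (for complex `α`, `β` of absolute value
larger than one, multiplicative independence is equivalent to the asymptotic formula) is false.
(2) It fails for generic real bases: for every real `b > 1` and every positive function `ψ` there is a
`Gδ` set, dense in `(1, ∞)`, of numbers `a` which are multiplicatively independent of `b`, for which
`|a ^ n - b ^ m| < ψ n` has infinitely many coprime solutions, and for which there are infinitely many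
pairs with `|a ^ n - b ^ m| ≤ x` for every `x > 0`.
(3) It fails also if the number of the pairs is finite for every `x`: for every `b > 1`, every `F`,
`a₀ > 1` and `ε > 0` there is an `a` within `ε` of `a₀`, multiplicatively independent of `b`, with only
finitely many pairs for every `x` but at least `F k` coprime pairs for `x = k`, for all `k ≥ 1`.
(4) In particular there are numbers `a` arbitrarily close to `π` with irrational `log a`, with finitely
many pairs `|a ^ n - e ^ m| ≤ x` for every `x`, for which the formula fails. -/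
theorem result :
    (¬ ∀ α β : ℂ, 1 < ‖α‖ → 1 < ‖β‖ → (MultIndep α β ↔ Formula α β)) ∧
    (∀ b : ℝ, 1 < b → ∀ ψ : ℕ → ℝ, (∀ n, 0 < ψ n) →
      ∃ G : Set ℝ, IsGδ G ∧ G ⊆ Ioi 1 ∧ Ioi 1 ⊆ closure G ∧ ∀ a ∈ G,
        MultIndep a b ∧ {p : ℕ × ℕ | p.1.Coprime p.2 ∧ |a ^ p.1 - b ^ p.2| < ψ p.1}.Infinite ∧
        ∀ x : ℝ, 0 < x → (pairs a b x).Infinite) ∧
    (∀ b : ℝ, 1 < b → ∀ F : ℕ → ℕ, ∀ a₀ : ℝ, 1 < a₀ → ∀ ε : ℝ, 0 < ε →
      ∃ a : ℝ, 1 < a ∧ |a - a₀| < ε ∧ MultIndep a b ∧ (∀ x : ℝ, (pairs a b x).Finite) ∧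
        ∀ k : ℕ, 1 ≤ k → F k ≤ {p ∈ pairs a b k | p.1.Coprime p.2}.ncard) ∧
    (∀ ε : ℝ, 0 < ε → ∃ a : ℝ, 1 < a ∧ |a - Real.pi| < ε ∧ Irrational (Real.log a) ∧
      (∀ x : ℝ, (pairs a (Real.exp 1) x).Finite) ∧ ¬ Formula a (Real.exp 1)) := by
  have h3 : ∀ b : ℝ, 1 < b → ∀ F : ℕ → ℕ, ∀ a₀ : ℝ, 1 < a₀ → ∀ ε : ℝ, 0 < ε →
      ∃ a : ℝ, 1 < a ∧ |a - a₀| < ε ∧ MultIndep a b ∧ (∀ x : ℝ, (pairs a b x).Finite) ∧
        ∀ k : ℕ, 1 ≤ k → F k ≤ {p ∈ pairs a b k | p.1.Coprime p.2}.ncard := by
    intro b hb F a₀ ha₀ ε hε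
    obtain ⟨a, ha1, ha2, ha3, ha4⟩ := Pool.Agent.HP42.NC.finite_growth b hb F a₀ ε ha₀ hε
    have hfin : ∀ x : ℝ, (pairs a b x).Finite := fun x => by rw [pairs_real]; exact ha3 x
    refine ⟨a, ha1, ha2, multIndep_of_finite a b ha1 hb (hfin 0), hfin, fun k hk => ?_⟩
    have h1 := ha4 k hk
    have h2 : {p ∈ pairs a b k | p.1.Coprime p.2} = {p : ℕ × ℕ | p.1.Coprime p.2 ∧ |a ^ p.1 - b ^ p.2| ≤ k} := by
      rw [pairs_real]
      ext p
      simp only [Set.mem_setOf_eq]
      exact and_comm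
    rwa [h2]
  have h5 : ∀ (a b : ℝ), 1 < a → 1 < b → (∀ x : ℝ, (pairs a b x).Finite) →
      (∀ k : ℕ, 1 ≤ k → k ≤ {p ∈ pairs a b k | p.1.Coprime p.2}.ncard) → ¬ Formula a b := by
    intro a b ha hb hfin h
    apply not_formula
    intro k hk
    exact (h k hk).trans (Set.ncard_le_ncard (fun p hp => hp.1) (hfin k))
  have h4 : ∀ ε : ℝ, 0 < ε → ∃ a : ℝ, 1 < a ∧ |a - Real.pi| < ε ∧ Irrational (Real.log a) ∧
      (∀ x : ℝ, (pairs a (Real.exp 1) x).Finite) ∧ ¬ Formula a (Real.exp 1) := by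
    intro ε hε
    have he1 : (1 : ℝ) < Real.exp 1 := Real.one_lt_exp_iff.2 one_pos
    obtain ⟨a, ha1, ha2, ha3, ha4, ha5⟩ := h3 (Real.exp 1) he1 (fun k => k) Real.pi
      (by linarith [Real.pi_gt_three]) ε hε
    refine ⟨a, ha1, ha2, ?_, ha4, h5 a _ ha1 he1 ha4 ha5⟩
    -- irrationality
    rintro ⟨q, hq⟩
    have ha0 : 0 < a := by linarith
    have hd : (q.den : ℝ) * Real.log a = q.num := by
      rw [← hq]
      have := Rat.den_mul_eq_num q
      exact_mod_cast this
    have h6 := ha3 q.den (-q.num) (by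
      have h7 : a ^ (q.den : ℤ) = Real.exp 1 ^ (q.num) := by
        rw [← Real.exp_log (zpow_pos ha0 _), ← Real.exp_log (zpow_pos (Real.exp_pos 1) q.num),
          Real.log_zpow, Real.log_zpow, Real.log_exp, mul_one]
        exact congrArg Real.exp (by exact_mod_cast hd)
      have h8 : a ^ (q.den : ℤ) * Real.exp 1 ^ (-q.num) = 1 := by
        rw [h7, zpow_neg, mul_inv_cancel₀ (zpow_pos (Real.exp_pos 1) _).ne']
      exact_mod_cast congrArg (fun y : ℝ => (y : ℂ)) h8)
    have := q.den_pos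
    omega
  refine ⟨?_, ?_, h3, h4⟩
  · intro hconj
    have he1 : (1 : ℝ) < Real.exp 1 := Real.one_lt_exp_iff.2 one_pos
    obtain ⟨a, ha1, -, ha3, ha4, ha5⟩ := h3 (Real.exp 1) he1 (fun k => k) Real.pi
      (by linarith [Real.pi_gt_three]) 1 one_pos
    refine h5 a _ ha1 he1 ha4 ha5 ((hconj a (Real.exp 1 : ℝ) ?_ ?_).1 ha3)
    · rw [Complex.norm_real, Real.norm_eq_abs, abs_of_pos (by linarith)]; exact ha1
    · rw [Complex.norm_real, Real.norm_eq_abs, abs_of_pos (by linarith)]; exact he1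
  · intro b hb ψ hψ
    obtain ⟨G, hG1, hG2, hG3, hG4⟩ := Pool.Agent.HP42.NC.generic b hb
      (fun n => min (ψ n) (1 / ((n : ℝ) + 1))) (fun n => lt_min (hψ n) (by positivity))
    refine ⟨G, hG1, hG2, hG3, fun a ha => ?_⟩
    obtain ⟨h6, h7⟩ := hG4 a ha
    refine ⟨multIndep_of a b (by linarith) h6, ?_, ?_⟩
    · exact h7.mono fun p hp => ⟨hp.1, hp.2.trans_le (min_le_left _ _)⟩
    · intro x hx
      rw [pairs_real]
      exact Pool.Agent.HP42.NC.infinite_le a b
        (h7.mono fun p hp => ⟨hp.1, hp.2.trans_le (min_le_right _ _)⟩) (hG2 ha) hb x hx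

end Pool.Agent.Results.MP_606be1_nt.GenericBasesFail
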