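import Pool.Agent.H32x.ST.Conv
import Pool.Agent.Results.MP_606be1_nt.DilatedNearCoincidences

/-!
# The second term in the number of near-coincidences between powers

Let `a, b > 1`, let `N(x)` be the number of the pairs `(n, m)` with `|a ^ n - b ^ m| ≤ x`, `N(x, T)` the
number of those with `n ≤ T`, and `s = 1 / log a + 1 / log b`. We determine the limit points of
`R(x) = (N(x) - (log x) ^ 2 / (log a log b)) / log x`.

(1) If `log a / log b` is irrational and `log x / log a ≤ T(x) ≤ K log x`, the limit points for the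
truncated count `N(x, T(x))` are exactly the points of `[0, s]`.
(2) All `N(x)` are finite and the same holds for `N(x)` if and only if `log a / log b` is irrational and the
coprime near misses `|a ^ n - b ^ m| < a ^ (n / 2)` with `|a ^ n - b ^ m| ≤ x` are finitely many for each `x`
and `o(log x)` in number.
(3) This holds for every `b > 1` and all `a > 1` outside a set of Hausdorff dimension zero.
(4) For all `a, b > 1` for which all the `N(x)` are finite (the question is about `π` and `e`), `R(x) ≥ 0`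
for `x > 1`, and the upper limit of `R` is at least `s`.

Proof. The pairs of the box `a ^ n, b ^ m ≤ x` belong to the set. A pair of the set outside the box for
`x exp ε` satisfies `|n log a - m log b| ≤ C x / a ^ n`. Those with `n log a ≤ log x + S` are boundedly
many, those with `n ≤ K log x` are at most `K log x / G + 1` many, as two of them have first
coordinates at a distance of at least `G`, and for large `x` all others are coprime near misses. So the
number is up to `o(log x)` between the numbers of the pairs in the boxes for `x` and `x exp ε`, and the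
fractional parts of `log x / log a` and `log x / log b` can be prescribed (Kronecker). Conversely, there are
points with bounded gaps in the scale `log x` at which the box alone gives almost `s log x`, and only few near
misses are in the box.
-/

set_option autoImplicit false

namespace Pool.Agent.Results.MP_606be1_nt.SecondTerm

open Real Filter Asymptotics Topology Set Pool.Agent.H32x.ST

/-- the pairs `(n, m)` of natural numbers with `|a ^ n - b ^ m| ≤ x` -/
def pairs (a b x : ℝ) : Set (ℕ × ℕ) := {p | |a ^ p.1 - b ^ p.2| ≤ x}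

/-- the near misses up to `x`: `n` and `m` are coprime, `|a ^ n - b ^ m| < a ^ (n / 2)` and
`|a ^ n - b ^ m| ≤ x` -/
def nearMisses (a b x : ℝ) : Set (ℕ × ℕ) :=
  {p | (p.1.Coprime p.2 ∧ |a ^ p.1 - b ^ p.2| ^ 2 < a ^ p.1) ∧ |a ^ p.1 - b ^ p.2| ≤ x}

/-- the normalized difference `(N(x) - (log x) ^ 2 / (log a log b)) / log x`, where `N(x)` is the number
of the elements of `S x` -/
noncomputable def second (a b : ℝ) (S : ℝ → Set (ℕ × ℕ)) (x : ℝ) : ℝ :=
  (((S x).ncard : ℝ) - log x ^ 2 / (log a * log b)) / log x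

/-- the sets `S x` are finite for large `x`, and the limit points of `second a b S x` as `x → ∞` are exactly
the points of the interval from `0` to `1 / log a + 1 / log b`; moreover `second` is nonnegative for large
`x`, and its upper limit is `1 / log a + 1 / log b` -/
def ExactLimitPoints (a b : ℝ) (S : ℝ → Set (ℕ × ℕ)) : Prop :=
  (∀ᶠ x in atTop, (S x).Finite) ∧
  (∀ ε : ℝ, 0 < ε → ∀ᶠ x in atTop, 0 ≤ second a b S x ∧
    second a b S x < 1 / log a + 1 / log b + ε) ∧
  ∀ c : ℝ, MapClusterPt c atTop (second a b S) ↔ c ∈ Icc 0 (1 / log a + 1 / log b)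

lemma pow_eq {a : ℝ} (ha : 1 < a) (n : ℕ) : a ^ n = exp (n * log a) := by
  rw [Real.exp_nat_mul, Real.exp_log (by linarith)]

lemma pairs_eq {a b x : ℝ} (ha : 1 < a) (hb : 1 < b) (hx : 0 < x) :
    pairs a b x = prs (log a) (log b) (log x) := by
  ext p
  show |a ^ p.1 - b ^ p.2| ≤ x ↔ |exp (p.1 * log a) - exp (p.2 * log b)| ≤ exp (log x)
  rw [pow_eq ha, pow_eq hb, Real.exp_log hx]

lemma nm_eq {a b x : ℝ} (ha : 1 < a) (hb : 1 < b) (hx : 0 < x) :
    nearMisses a b x = nms (log a) (log b) (log x) := by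
  ext p
  show ((p.1.Coprime p.2 ∧ |a ^ p.1 - b ^ p.2| ^ 2 < a ^ p.1) ∧ |a ^ p.1 - b ^ p.2| ≤ x) ↔
    ((p.1.Coprime p.2 ∧ |exp (p.1 * log a) - exp (p.2 * log b)| ^ 2 < exp (p.1 * log a)) ∧
      |exp (p.1 * log a) - exp (p.2 * log b)| ≤ exp (log x))
  rw [pow_eq ha, pow_eq hb, Real.exp_log hx]

/-- the transfer to the variable `log x` -/
theorem transfer {a b : ℝ} (ha : 1 < a) (hb : 1 < b) (hirr : Irrational (log a / log b))
    {S : ℝ → Set (ℕ × ℕ)} (hfin : ∀ᶠ L in atTop, (S (exp L)).Finite)
    (hlow : ∀ᶠ L in atTop, LowAt (log a) (log b) (fun L => ((S (exp L)).ncard : ℝ)) L)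
    (hup : Up (log a) (log b) fun L => ((S (exp L)).ncard : ℝ)) : ExactLimitPoints a b S := by
  have hA : 0 < log a := log_pos ha
  have hB : 0 < log b := log_pos hb
  have heq : ∀ x : ℝ, 0 < x →
      second a b S x = G (log a) (log b) (fun L => ((S (exp L)).ncard : ℝ)) (log x) := by
    intro x hx
    unfold second G
    simp only
    rw [Real.exp_log hx]
  have hup' : ∀ ε : ℝ, 0 < ε → ∀ᶠ x in atTop, 0 ≤ second a b S x ∧
      second a b S x < 1 / log a + 1 / log b + ε := by
    intro ε hε
    filter_upwards [Real.tendsto_log_atTop.eventually (gen_up hA hB hup hε),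
      Real.tendsto_log_atTop.eventually hlow, eventually_gt_atTop (1 : ℝ)] with x h1 h2 h3
    rw [heq x (by linarith)]
    exact ⟨G_nonneg hA hB (log_pos h3) h2, h1⟩
  refine ⟨?_, hup', fun c => ⟨fun hc => ?_, ?_⟩⟩
  · filter_upwards [Real.tendsto_log_atTop.eventually hfin, eventually_gt_atTop (0 : ℝ)] with x h1 h2
    rwa [Real.exp_log h2] at h1
  · rw [mapClusterPt_iff_frequently] at hc
    constructor
    · by_contra hcon
      push Not at hcon
      obtain ⟨x, h1, h2⟩ := ((hc _ (Iio_mem_nhds hcon)).and_eventually (hup' 1 one_pos)).exists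
      exact absurd h1 (not_lt.2 h2.1)
    · by_contra hcon
      push Not at hcon
      have h0 : (1 / log a + 1 / log b + c) / 2 < c := by linarith
      obtain ⟨x, h1, h2⟩ := ((hc _ (Ioi_mem_nhds h0)).and_eventually
        (hup' ((c - (1 / log a + 1 / log b)) / 2) (by linarith))).exists
      have h3 := h2.2
      have h4 : (1 / log a + 1 / log b + c) / 2 < second a b S x := h1
      linarith
  · rintro ⟨hc0, hc1⟩
    rw [mapClusterPt_iff_frequently]
    intro s hs
    obtain ⟨ε, hε, hs⟩ := Metric.mem_nhds_iff.1 hs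
    rw [Filter.frequently_atTop]
    intro x₀
    obtain ⟨L, h1, h2⟩ := gen_cluster hA hB hirr hlow hup hc0 hc1 hε (log (max x₀ 1))
    refine ⟨exp L, ?_, hs ?_⟩
    · have h3 : max x₀ 1 ≤ exp L := by
        rw [← Real.log_le_iff_le_exp (by positivity)]
        exact h1
      exact (le_max_left _ _).trans h3
    · rw [Metric.mem_ball, Real.dist_eq, heq _ (exp_pos L), Real.log_exp]
      exact h2

/-- the truncated count -/
theorem truncated {a b : ℝ} (ha : 1 < a) (hb : 1 < b) (hirr : Irrational (log a / log b)) {K : ℝ}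
    {T : ℝ → ℝ} (hT : ∀ᶠ x in atTop, log x / log a ≤ T x ∧ T x ≤ K * log x) :
    ExactLimitPoints a b fun x => {p | p ∈ pairs a b x ∧ (p.1 : ℝ) ≤ T x} := by
  have hA : 0 < log a := log_pos ha
  have hB : 0 < log b := log_pos hb
  have hset : ∀ L : ℝ, {p | p ∈ pairs a b (exp L) ∧ (p.1 : ℝ) ≤ T (exp L)} =
      prsT (log a) (log b) (T (exp L)) L := by
    intro L
    rw [pairs_eq ha hb (exp_pos L), Real.log_exp]
    ext p
    exact ⟨fun h => ⟨h.2, h.1⟩, fun h => ⟨h.2, h.1⟩⟩
  have hT' : ∀ᶠ L in atTop, L / log a ≤ T (exp L) ∧ T (exp L) ≤ max K 1 * L := by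
    filter_upwards [Real.tendsto_exp_atTop.eventually hT, eventually_ge_atTop (0 : ℝ)] with L h1 h2
    rw [Real.log_exp] at h1
    exact ⟨h1.1, h1.2.trans (mul_le_mul_of_nonneg_right (le_max_left _ _) h2)⟩
  have hK : 0 < max K 1 := lt_max_of_lt_right one_pos
  have hfin : ∀ᶠ L in atTop, (prsT (log a) (log b) (T (exp L)) L).Finite := by
    filter_upwards [upperT hA hB hirr hK one_pos one_pos, hT'] with L h1 h2
    exact (h1 _ h2.2).1
  apply transfer ha hb hirr
  · simp only [hset]
    exact hfin
  · simp only [hset]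
    filter_upwards [hfin, hT', eventually_ge_atTop (0 : ℝ)] with L h1 h2 h3
    exact lowerT hA hB h3 h2.1 h1
  · intro ε η hε hη
    simp only [hset]
    filter_upwards [upperT hA hB hirr hK hε hη, hT'] with L h1 h2
    exact (h1 _ h2.2).2

lemma irr_of_finite {a b : ℝ} (ha : 1 < a) (hb : 1 < b) (hfin : (pairs a b 0).Finite) :
    Irrational (log a / log b) := by
  rintro ⟨r, hr⟩
  have hA : 0 < log a := log_pos ha
  have hB : 0 < log b := log_pos hb
  have hr0 : 0 < r := by
    have : (0 : ℝ) < r := by rw [hr]; positivity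
    exact_mod_cast this
  have hnum : 0 < r.num := Rat.num_pos.2 hr0
  obtain ⟨p, hp⟩ : ∃ p : ℕ, r.num = p := ⟨r.num.toNat, (Int.toNat_of_nonneg hnum.le).symm⟩
  have h1 : (r.den : ℝ) * log a = p * log b := by
    have h2 : (r : ℝ) = (p : ℝ) / r.den := by
      have h3 : (r : ℝ) = (r.num : ℝ) / r.den := by exact_mod_cast (Rat.num_div_den r).symm
      rw [h3, hp, Int.cast_natCast]
    have hd : (0 : ℝ) < r.den := by exact_mod_cast r.den_pos
    rw [h2, div_eq_div_iff hd.ne' hB.ne'] at hr
    linarith
  refine Set.infinite_of_injective_forall_mem (f := fun k : ℕ => (k * r.den, k * p)) ?_ ?_ hfin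
  · intro k k' h
    simp only [Prod.mk.injEq] at h
    exact Nat.eq_of_mul_eq_mul_right r.den_pos h.1
  · intro k
    show |a ^ (k * r.den) - b ^ (k * p)| ≤ 0
    rw [pow_eq ha, pow_eq hb]
    have h2 : ((k * r.den : ℕ) : ℝ) * log a = ((k * p : ℕ) : ℝ) * log b := by
      push_cast
      rw [mul_assoc, mul_assoc, h1]
    rw [h2, sub_self, abs_zero]

/-- few near misses -/
theorem exact_of_few {a b : ℝ} (ha : 1 < a) (hb : 1 < b) (hirr : Irrational (log a / log b))
    (hfin : ∀ x, (nearMisses a b x).Finite)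
    (ho : (fun x : ℝ => ((nearMisses a b x).ncard : ℝ)) =o[atTop] fun x : ℝ => log x) :
    (∀ x, (pairs a b x).Finite) ∧ ExactLimitPoints a b (pairs a b) := by
  have hA : 0 < log a := log_pos ha
  have hB : 0 < log b := log_pos hb
  have hfin' : ∀ L, (nms (log a) (log b) L).Finite := by
    intro L
    have := hfin (exp L)
    rwa [nm_eq ha hb (exp_pos L), Real.log_exp] at this
  have ho' : ∀ η : ℝ, 0 < η → ∀ᶠ L in atTop, ((nms (log a) (log b) L).ncard : ℝ) ≤ η * L := by
    intro η hη
    have h1 := Real.tendsto_exp_atTop.eventually (ho.bound hη)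
    filter_upwards [h1, eventually_ge_atTop (0 : ℝ)] with L h2 h3
    rw [nm_eq ha hb (exp_pos L), Real.log_exp, Real.norm_of_nonneg (Nat.cast_nonneg _),
      Real.norm_of_nonneg h3] at h2
    exact h2
  have hset : ∀ L : ℝ, pairs a b (exp L) = prs (log a) (log b) L := by
    intro L
    rw [pairs_eq ha hb (exp_pos L), Real.log_exp]
  have hf : ∀ᶠ L in atTop, (prs (log a) (log b) L).Finite :=
    (upper hA hB hirr hfin' ho' one_pos one_pos).mono fun L h => h.1
  have hlim : ExactLimitPoints a b (pairs a b) := by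
    apply transfer ha hb hirr
    · simp only [hset]
      exact hf
    · simp only [hset]
      filter_upwards [hf, eventually_ge_atTop (0 : ℝ)] with L h1 h2
      exact lower hA hB h2 h1
    · intro ε η hε hη
      simp only [hset]
      exact (upper hA hB hirr hfin' ho' hε hη).mono fun L h => h.2
  refine ⟨fun x => ?_, hlim⟩
  obtain ⟨y, hy⟩ := (hlim.1.and (eventually_ge_atTop x)).exists
  exact hy.1.subset fun p hp => le_trans (show |a ^ p.1 - b ^ p.2| ≤ x from hp) hy.2

/-- few near misses are necessary -/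
theorem few_of_exact {a b : ℝ} (ha : 1 < a) (hb : 1 < b) (hfin : ∀ x, (pairs a b x).Finite)
    (h : ExactLimitPoints a b (pairs a b)) :
    Irrational (log a / log b) ∧ (∀ x, (nearMisses a b x).Finite) ∧
      (fun x : ℝ => ((nearMisses a b x).ncard : ℝ)) =o[atTop] fun x : ℝ => log x := by
  have hA : 0 < log a := log_pos ha
  have hB : 0 < log b := log_pos hb
  have hirr := irr_of_finite ha hb (hfin 0)
  have hset : ∀ L : ℝ, pairs a b (exp L) = prs (log a) (log b) L := by
    intro L
    rw [pairs_eq ha hb (exp_pos L), Real.log_exp]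
  have hfin' : ∀ L, (prs (log a) (log b) L).Finite := fun L => by
    rw [← hset]
    exact hfin _
  have hup : ∀ ε : ℝ, 0 < ε → ∀ᶠ L in atTop,
      G (log a) (log b) (fun L => ((prs (log a) (log b) L).ncard : ℝ)) L <
        1 / log a + 1 / log b + ε := by
    intro ε hε
    filter_upwards [Real.tendsto_exp_atTop.eventually (h.2.1 ε hε)] with L h1
    have h2 := h1.2
    unfold second at h2
    rw [hset, Real.log_exp] at h2
    exact h2
  refine ⟨hirr, fun x => (hfin x).subset fun p hp => hp.2, ?_⟩
  rw [isLittleO_iff]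
  intro c hc
  filter_upwards [Real.tendsto_log_atTop.eventually (conv hA hB hirr hfin' hup hc),
    eventually_gt_atTop (1 : ℝ)] with x h1 h2
  rw [nm_eq ha hb (by linarith), Real.norm_of_nonneg (Nat.cast_nonneg _),
    Real.norm_of_nonneg (log_pos h2).le]
  exact h1

/-- the unconditional lower bound -/
theorem limsup_ge {a b : ℝ} (ha : 1 < a) (hb : 1 < b) (hfin : ∀ x, (pairs a b x).Finite) :
    (∀ x : ℝ, 1 < x → 0 ≤ second a b (pairs a b) x) ∧
    ∀ ε : ℝ, 0 < ε → ∃ᶠ x in atTop, 1 / log a + 1 / log b - ε < second a b (pairs a b) x := by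
  have hA : 0 < log a := log_pos ha
  have hB : 0 < log b := log_pos hb
  have hirr := irr_of_finite ha hb (hfin 0)
  have hfin' : ∀ L, (prs (log a) (log b) L).Finite := by
    intro L
    have := hfin (exp L)
    rwa [pairs_eq ha hb (exp_pos L), Real.log_exp] at this
  have heq : ∀ x : ℝ, 0 < x → second a b (pairs a b) x =
      G (log a) (log b) (fun L => ((prs (log a) (log b) L).ncard : ℝ)) (log x) := by
    intro x hx
    unfold second G
    simp only
    rw [pairs_eq ha hb hx]
  refine ⟨fun x hx => ?_, fun ε hε => ?_⟩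
  · rw [heq x (by linarith)]
    exact G_nonneg hA hB (log_pos hx) (lower hA hB (log_pos hx).le (hfin' _))
  · rw [Filter.frequently_atTop]
    intro x₀
    obtain ⟨L, h1, -, h2⟩ := gen_low (N := fun L => ((prs (log a) (log b) L).ncard : ℝ)) hA hB hirr
      (fun L hL => lower hA hB (by linarith) (hfin' L)) hε (log (max x₀ 1))
    refine ⟨exp L, ?_, ?_⟩
    · have h3 : max x₀ 1 ≤ exp L := by
        rw [← Real.log_le_iff_le_exp (by positivity)]
        exact h1
      exact (le_max_left _ _).trans h3
    · rw [heq _ (exp_pos L), Real.log_exp]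
      exact h2

/-- off a set of dimension zero -/
theorem exact_off {b : ℝ} (hb : 1 < b) : ∃ E : Set ℝ, dimH E = 0 ∧ ∀ a : ℝ, 1 < a → a ∉ E →
    (∀ x, (pairs a b x).Finite) ∧ ExactLimitPoints a b (pairs a b) := by
  obtain ⟨E, hE, h⟩ := DilatedNearCoincidences.result.2.2 b 1 hb one_pos
  refine ⟨E, hE, fun a ha haE => ?_⟩
  obtain ⟨h1, C, h2⟩ := h a ha haE
  have hirr : Irrational (log a / log b) := by
    apply irr_of_finite ha hb
    refine (h2 2 le_rfl).1.subset fun p hp => ?_
    have hp' : |a ^ p.1 - b ^ p.2| ≤ 0 := hp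
    show |1 * a ^ p.1 - b ^ p.2| ≤ 2
    rw [one_mul]
    linarith
  have hsub : ∀ x, nearMisses a b x ⊆ DilatedNearCoincidences.nearMisses a b 1 := by
    intro x p hp
    have hp' : |a ^ p.1 - b ^ p.2| ^ 2 < a ^ p.1 := hp.1.2
    show |1 * a ^ p.1 - b ^ p.2| ^ 2 < 1 * a ^ p.1
    rw [one_mul]
    exact hp'
  refine exact_of_few ha hb hirr (fun x => h1.subset (hsub x)) ?_
  refine Asymptotics.IsBigO.trans_isLittleO (g := fun _ : ℝ => (1 : ℝ)) ?_ ?_
  · refine Asymptotics.IsBigO.of_bound
      ((DilatedNearCoincidences.nearMisses a b 1).ncard : ℝ) (Eventually.of_forall fun x => ?_)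
    rw [Real.norm_of_nonneg (Nat.cast_nonneg _), norm_one, mul_one]
    exact_mod_cast Set.ncard_le_ncard (hsub x) h1
  · rw [Asymptotics.isLittleO_const_left]
    right
    exact tendsto_norm_atTop_atTop.comp Real.tendsto_log_atTop

theorem result :
    -- the truncated count
    (∀ a b : ℝ, 1 < a → 1 < b → Irrational (log a / log b) → ∀ (K : ℝ) (T : ℝ → ℝ),
      (∀ᶠ x in atTop, log x / log a ≤ T x ∧ T x ≤ K * log x) →
      ExactLimitPoints a b fun x => {p | p ∈ pairs a b x ∧ (p.1 : ℝ) ≤ T x}) ∧
    -- all pairs, the criterion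
    (∀ a b : ℝ, 1 < a → 1 < b → ((∀ x, (pairs a b x).Finite) ∧ ExactLimitPoints a b (pairs a b) ↔
      Irrational (log a / log b) ∧ (∀ x, (nearMisses a b x).Finite) ∧
        (fun x : ℝ => ((nearMisses a b x).ncard : ℝ)) =o[atTop] fun x : ℝ => log x)) ∧
    -- all pairs, off a set of dimension zero
    (∀ b : ℝ, 1 < b → ∃ E : Set ℝ, dimH E = 0 ∧ ∀ a : ℝ, 1 < a → a ∉ E →
      (∀ x, (pairs a b x).Finite) ∧ ExactLimitPoints a b (pairs a b)) ∧
    -- all pairs, the lower bounds
    (∀ a b : ℝ, 1 < a → 1 < b → (∀ x, (pairs a b x).Finite) →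
      (∀ x : ℝ, 1 < x → 0 ≤ second a b (pairs a b) x) ∧
      ∀ ε : ℝ, 0 < ε → ∃ᶠ x in atTop, 1 / log a + 1 / log b - ε < second a b (pairs a b) x) :=
  ⟨fun _ _ ha hb hirr _ _ hT => truncated ha hb hirr hT,
    fun _ _ ha hb => ⟨fun h => few_of_exact ha hb h.1 h.2,
      fun h => exact_of_few ha hb h.1 h.2.1 h.2.2⟩, fun _ hb => exact_off hb,
    fun _ _ ha hb hfin => limsup_ge ha hb hfin⟩

end Pool.Agent.Results.MP_606be1_nt.SecondTerm
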