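import Pool.Agent.H70N.Trunc2

/-!
# The number of near-coincidences with bounded exponent

For `a, b > 1` let `N(x, T)` be the number of the pairs `(n, m)` of natural numbers with `n ≤ T` and
`|a ^ n - b ^ m| ≤ x`; the question is about `a = π`, `b = e` and `T = ∞`. For all `x ≥ 2` and
`T ≥ 2 log x / log a`, uniformly,

  `N(x, T) = (log x) ^ 2 / (log a log b) + κ T + o(T) + O(log x)`,

where `κ = 0` if `log a / log b` is irrational and `κ = 1 / q` if it is `p / q` in lowest terms. Hence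
for every `A > 0` the formula `N(x, A (log x) ^ 2) ~ (log x) ^ 2 / (log a log b)` holds if and only if
`log a / log b` is irrational, and for `T = o((log x) ^ 2)` it holds for all `a, b > 1`.
-/

set_option autoImplicit false

namespace Pool.Agent.Results.MP_606be1_nt.TruncatedCount

open Real Filter Asymptotics

/-- the pairs `(n, m)` with `n ≤ T` and `|a ^ n - b ^ m| ≤ x` -/
def pairsUpTo (a b x T : ℝ) : Set (ℕ × ℕ) := {p | (p.1 : ℝ) ≤ T ∧ |a ^ p.1 - b ^ p.2| ≤ x}

lemma below {a b : ℝ} (ha : 1 < a) (hb : 1 < b) (T : ℝ → ℝ)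
    (hT : T =o[atTop] (fun x : ℝ => log x ^ 2)) (hT' : ∀ᶠ x in atTop, 2 * log x / log a ≤ T x) :
    (fun x : ℝ => ((pairsUpTo a b x (T x)).ncard : ℝ)) ~[atTop]
      (fun x : ℝ => log x ^ 2 / (log a * log b)) := by
  have hA : 0 < log a := log_pos ha
  have hB : 0 < log b := log_pos hb
  set D := log a * log b with hD
  have hD0 : 0 < D := by positivity
  obtain ⟨K, hK0, hK⟩ := Pool.Agent.H70N.rough ha hb
  change (fun x : ℝ => ((pairsUpTo a b x (T x)).ncard : ℝ) - log x ^ 2 / D) =o[atTop]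
    (fun x : ℝ => log x ^ 2 / D)
  rw [isLittleO_iff]
  intro c hc
  rw [isLittleO_iff] at hT
  filter_upwards [hT (show 0 < c / (4 * D) by positivity), hT', eventually_ge_atTop (2 : ℝ),
    Real.tendsto_log_atTop.eventually_ge_atTop (2 * K * D / c)] with x h1 h2 h3 h4
  have hlx0 : 0 < log x := log_pos (by linarith)
  have h5 := hK x h3 (T x) h2
  rw [Real.norm_eq_abs, Real.norm_eq_abs, abs_of_nonneg (show 0 ≤ log x ^ 2 / D by positivity)]
  rw [Real.norm_eq_abs, Real.norm_eq_abs, abs_of_nonneg (show 0 ≤ log x ^ 2 by positivity)] at h1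
  have h6 : T x ≤ c / (4 * D) * log x ^ 2 := (le_abs_self _).trans h1
  have h7 : K * log x ≤ c / (2 * D) * log x ^ 2 := by
    rw [div_le_iff₀ hc] at h4
    rw [div_mul_eq_mul_div, le_div_iff₀ (by positivity)]
    nlinarith
  have h8 : c * (log x ^ 2 / D) = 2 * (c / (4 * D) * log x ^ 2) + c / (2 * D) * log x ^ 2 := by
    field_simp
    ring
  rw [h8]
  exact h5.trans (by linarith)

lemma threshold {a b : ℝ} (ha : 1 < a) (hb : 1 < b) {A : ℝ} (hA0 : 0 < A) :
    ((fun x : ℝ => ((pairsUpTo a b x (A * log x ^ 2)).ncard : ℝ)) ~[atTop]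
      (fun x : ℝ => log x ^ 2 / (log a * log b))) ↔ Irrational (log a / log b) := by
  have hA : 0 < log a := log_pos ha
  have hB : 0 < log b := log_pos hb
  set D := log a * log b with hD
  have hD0 : 0 < D := by positivity
  have hrange : ∀ᶠ x : ℝ in atTop, 2 * log x / log a ≤ A * log x ^ 2 := by
    filter_upwards [eventually_ge_atTop (2 : ℝ),
      Real.tendsto_log_atTop.eventually_ge_atTop (2 / (A * log a))] with x h1 h2
    have hlx0 : 0 < log x := log_pos (by linarith)
    rw [div_le_iff₀ (by positivity)] at h2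
    rw [div_le_iff₀ hA]
    nlinarith
  constructor
  · intro h
    by_contra hirr
    obtain ⟨p, q, hq, hpq, hf⟩ := Pool.Agent.H70N.exists_frac ha hb hirr
    have hq0 : (0 : ℝ) < q := by exact_mod_cast hq
    obtain ⟨K, hK0, hK⟩ := Pool.Agent.H70N.rat_count ha hb hq hpq hf
      (ε := 1 / (4 * q)) (by positivity)
    have h' : (fun x : ℝ => ((pairsUpTo a b x (A * log x ^ 2)).ncard : ℝ) - log x ^ 2 / D)
      =o[atTop] (fun x : ℝ => log x ^ 2 / D) := h
    rw [isLittleO_iff] at h'
    obtain ⟨x, h1, h2, h3, h4⟩ := ((h' (show 0 < D * A / (8 * q) by positivity)).and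
      (hrange.and ((eventually_ge_atTop (2 : ℝ)).and
        (Real.tendsto_log_atTop.eventually_gt_atTop (2 * K * q / A))))).exists
    have hlx0 : 0 < log x := log_pos (by linarith)
    have h5 := (hK x h3 _ h2).2
    rw [Real.norm_eq_abs, Real.norm_eq_abs, abs_of_nonneg (show 0 ≤ log x ^ 2 / D by positivity)]
      at h1
    have e1 : D * A / (8 * q) * (log x ^ 2 / D) = 1 / 8 * (A * log x ^ 2 / q) := by
      field_simp
    have e2 : 1 / (4 * (q : ℝ)) * (A * log x ^ 2) = 1 / 4 * (A * log x ^ 2 / q) := by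
      field_simp
    rw [e1] at h1
    rw [e2] at h5
    have h6 : K * log x < 1 / 2 * (A * log x ^ 2 / q) := by
      rw [div_lt_iff₀ hA0] at h4
      have : 1 / 2 * (A * log x ^ 2 / q) = (A * log x ^ 2) / (2 * q) := by field_simp
      rw [this, lt_div_iff₀ (by positivity)]
      nlinarith
    have h7 : 0 < A * log x ^ 2 / q := by positivity
    have h8 := abs_le.1 h1
    have h9 := abs_le.1 h5
    change _ ∧ _ at h9
    have h10 := h9.1
    have h11 := h8.2
    change ((Pool.Agent.H70N.UU a b x (A * log x ^ 2)).ncard : ℝ) - _ ≤ _ at h11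
    linarith
  · intro hirr
    change (fun x : ℝ => ((pairsUpTo a b x (A * log x ^ 2)).ncard : ℝ) - log x ^ 2 / D) =o[atTop]
      (fun x : ℝ => log x ^ 2 / D)
    rw [isLittleO_iff]
    intro c hc
    obtain ⟨K, hK0, hK⟩ := Pool.Agent.H70N.irr_count ha hb hirr
      (ε := c / (2 * D * A)) (by positivity)
    filter_upwards [hrange, eventually_ge_atTop (2 : ℝ),
      Real.tendsto_log_atTop.eventually_ge_atTop (2 * K * D / c)] with x h2 h3 h4
    have hlx0 : 0 < log x := log_pos (by linarith)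
    have h5 := (hK x h3 _ h2).2
    rw [Real.norm_eq_abs, Real.norm_eq_abs, abs_of_nonneg (show 0 ≤ log x ^ 2 / D by positivity)]
    have h7 : K * log x ≤ c / (2 * D) * log x ^ 2 := by
      rw [div_le_iff₀ hc] at h4
      rw [div_mul_eq_mul_div, le_div_iff₀ (by positivity)]
      nlinarith
    have h8 : c * (log x ^ 2 / D) = c / (2 * D * A) * (A * log x ^ 2) +
        c / (2 * D) * log x ^ 2 := by
      field_simp
      ring
    rw [h8]
    exact h5.trans (by linarith)

theorem result (a b : ℝ) (ha : 1 < a) (hb : 1 < b) :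
    -- the count if `log a / log b` is irrational
    (Irrational (log a / log b) → ∀ ε : ℝ, 0 < ε → ∃ K : ℝ, ∀ x : ℝ, 2 ≤ x → ∀ T : ℝ,
      2 * log x / log a ≤ T → (pairsUpTo a b x T).Finite ∧
        |((pairsUpTo a b x T).ncard : ℝ) - log x ^ 2 / (log a * log b)| ≤ ε * T + K * log x) ∧
    -- the count if `log a / log b = p / q`
    (∀ p q : ℕ, 1 ≤ q → p.Coprime q → log a / log b = p / q → ∀ ε : ℝ, 0 < ε → ∃ K : ℝ,
      ∀ x : ℝ, 2 ≤ x → ∀ T : ℝ, 2 * log x / log a ≤ T → (pairsUpTo a b x T).Finite ∧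
        |((pairsUpTo a b x T).ncard : ℝ) - log x ^ 2 / (log a * log b) - T / q| ≤
          ε * T + K * log x) ∧
    -- the threshold `n ≤ A (log x) ^ 2`
    (∀ A : ℝ, 0 < A → (((fun x : ℝ => ((pairsUpTo a b x (A * log x ^ 2)).ncard : ℝ)) ~[atTop]
      (fun x : ℝ => log x ^ 2 / (log a * log b))) ↔ Irrational (log a / log b))) ∧
    -- the formula below the threshold, without hypothesis
    ∀ T : ℝ → ℝ, T =o[atTop] (fun x : ℝ => log x ^ 2) →
      (∀ᶠ x in atTop, 2 * log x / log a ≤ T x) →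
      (fun x : ℝ => ((pairsUpTo a b x (T x)).ncard : ℝ)) ~[atTop]
        (fun x : ℝ => log x ^ 2 / (log a * log b)) := by
  refine ⟨fun hirr ε hε => ?_, fun p q hq hpq h ε hε => ?_, fun A hA => threshold ha hb hA,
    fun T hT hT' => below ha hb T hT hT'⟩
  · obtain ⟨K, -, hK⟩ := Pool.Agent.H70N.irr_count ha hb hirr hε
    exact ⟨K, hK⟩
  · obtain ⟨K, -, hK⟩ := Pool.Agent.H70N.rat_count ha hb hq hpq h hε
    exact ⟨K, hK⟩

end Pool.Agent.Results.MP_606be1_nt.TruncatedCount
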