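import Pool.Agent.H8T.INF
import Pool.Agent.H8T.SEQ
import Pool.Agent.H8T.THE
import Pool.Agent.H8T.CNT
import Pool.Agent.H8T.FIN

/-!
# The exact threshold up to which truncated counts of near-coincidences are under control

Let `N(x, T)` be the number of the pairs `(n, m)` with `n ≤ T` and `|a ^ n - b ^ m| ≤ x`. The question is
about `a = π`, `b = e`, `T = ∞`.

(1) For all `a, b > 1` with `log a / log b` irrational and all `K` the formula
`N(x, T) = (log x) ^ 2 / (log a log b) + o((log x) ^ 2)` holds along a sequence of `x`, for all `T` up to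
`exp (K (log x) ^ 2)`. Proof: let `q` be the denominator of a good approximation of `log a / log b` that comes
from a near miss. All near misses `n < q` satisfy `n = O(log q)`, and those in `(η log q, O(log q))` are
multiples of one large integer.

(2) This is sharp: for every `h → ∞` there are bases `a` in each interval, for which
`N(x, exp (h(x) (log x) ^ 2))` is larger than each multiple of `(log x) ^ 2` for all large `x`.
-/

set_option autoImplicit false

namespace Pool.Agent.Results.MP_606be1_nt.TruncationThreshold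

open Real Filter

/-- the pairs `(n, m)` with `n ≤ T` and `|a ^ n - b ^ m| ≤ x` -/
def pairsUpTo (a b x T : ℝ) : Set (ℕ × ℕ) := {p | (p.1 : ℝ) ≤ T ∧ |a ^ p.1 - b ^ p.2| ≤ x}

lemma pairs_eq (a b x T : ℝ) : pairsUpTo a b x T = Pool.Agent.R532.Nc.pairsUpTo a b 1 x T := by
  ext p
  simp only [pairsUpTo, Pool.Agent.R532.Nc.pairsUpTo, one_mul]

/-- (1) Let `a, b > 1` and let `log a / log b` be irrational. There is `C` such that for all `K` and all
`η > 0` there are arbitrarily large `x` with the following property: for all `y ≥ x` and all `T` with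
`C log y ≤ T ≤ exp (K (log x) ^ 2)` (for instance with `y = x`) the number of the pairs `(n, m)` with
`n ≤ T` and `|a ^ n - b ^ m| ≤ y` differs from `(log y) ^ 2 / (log a log b)` by at most `η (log y) ^ 2`.
(2) For all `b > 1`, `1 < u < v` and every function `h` with `h(x) → ∞` (as slowly as one wants) there is
`a` in `(u, v)` with `log a / log b` irrational such that for every `M` and all large `x` there are at
least `M (log x) ^ 2` (and finitely many) pairs `(n, m)` with `n ≤ exp (h(x) (log x) ^ 2)` and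
`|a ^ n - b ^ m| ≤ x`. -/
theorem result :
    (∀ a b : ℝ, 1 < a → 1 < b → Irrational (log a / log b) → ∃ C : ℝ, ∀ K η : ℝ, 0 < η →
      ∀ x₀ : ℝ, ∃ x : ℝ, x₀ ≤ x ∧ ∀ y : ℝ, x ≤ y → ∀ T : ℝ, C * log y ≤ T → T ≤ exp (K * log x ^ 2) →
        (pairsUpTo a b y T).Finite ∧
          |((pairsUpTo a b y T).ncard : ℝ) - log y ^ 2 / (log a * log b)| ≤ η * log y ^ 2) ∧
    (∀ (b u v : ℝ) (h : ℝ → ℝ), 1 < b → 1 < u → u < v → Tendsto h atTop atTop →
      ∃ a : ℝ, u < a ∧ a < v ∧ Irrational (log a / log b) ∧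
        ∀ M : ℝ, ∃ x₀ : ℝ, ∀ x : ℝ, x₀ ≤ x →
          (pairsUpTo a b x (exp (h x * log x ^ 2))).Finite ∧
            M * log x ^ 2 ≤ ((pairsUpTo a b x (exp (h x * log x ^ 2))).ncard : ℝ)) := by
  refine ⟨fun a b ha hb hθ => ?_, fun b u v h hb hu huv hh => ?_⟩
  · obtain ⟨C, hC0, hC⟩ := Pool.Agent.R532.Nc.trunc ha hb one_pos
    refine ⟨C, fun K η hη x₀ => ?_⟩
    set K' : ℝ := max K 1 with hK'
    have hK1 : 1 ≤ K' := le_max_right _ _
    have hKK : K ≤ K' := le_max_left _ _
    set L : ℝ := max (max x₀ 1) (2 * C / η) with hL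
    have hL1 : 1 ≤ L := (le_max_right _ _).trans (le_max_left _ _)
    have hLx : x₀ ≤ L := (le_max_left _ _).trans (le_max_left _ _)
    have hLC : 2 * C / η ≤ L := le_max_right _ _
    set ε : ℝ := η / (2 * (C + 1) * K') with hε
    have hε0 : 0 < ε := by positivity
    obtain ⟨Q, hQ, hn⟩ := Pool.Agent.H8T.inf ha hb hθ hε0 (exp (K' * L ^ 2))
    have hQ0 : 0 < Q := lt_of_lt_of_le (exp_pos _) hQ
    have hlQ : K' * L ^ 2 ≤ log Q := by
      rw [le_log_iff_exp_le hQ0]; exact hQ
    have hK0 : 0 < K' := by linarith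
    have hs0 : 0 ≤ log Q / K' := by
      refine div_nonneg ?_ hK0.le
      exact le_trans (by positivity) hlQ
    have hLs : L ≤ √(log Q / K') := by
      refine Real.le_sqrt_of_sq_le ?_
      rw [le_div_iff₀ hK0]
      linarith
    have hsq : √(log Q / K') ^ 2 = log Q / K' := Real.sq_sqrt hs0
    refine ⟨exp (√(log Q / K')), ?_, fun y hy T hT1 hT2 => ?_⟩
    · have := add_one_le_exp (√(log Q / K'))
      linarith
    rw [log_exp, hsq] at hT2
    have hly : √(log Q / K') ≤ log y := by
      rw [le_log_iff_exp_le (lt_of_lt_of_le (exp_pos _) hy)]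
      exact hy
    have hLy : L ≤ log y := hLs.trans hly
    have hy2 : 2 ≤ y := by
      have h1 := add_one_le_exp (√(log Q / K'))
      linarith
    have hTQ : T ≤ Q := by
      refine hT2.trans ?_
      rw [← le_log_iff_exp_le hQ0]
      have h1 : 0 ≤ log Q := le_trans (by positivity) hlQ
      calc K * (log Q / K') ≤ K' * (log Q / K') := mul_le_mul_of_nonneg_right hKK hs0
        _ = log Q := by field_simp
    obtain ⟨hf, he⟩ := hC y hy2 T hT1
    rw [pairs_eq]
    refine ⟨hf, he.trans ?_⟩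
    have hsub : Pool.Agent.R532.Nc.nearUpTo a b 1 T ⊆ Pool.Agent.R532.Nc.nearUpTo a b 1 Q := by
      rintro n ⟨h1, h2⟩
      exact ⟨h1.trans hTQ, h2⟩
    have hc1 : ((Pool.Agent.R532.Nc.nearUpTo a b 1 T).ncard : ℝ) ≤ ε * log Q := by
      refine le_trans ?_ hn
      exact_mod_cast Set.ncard_le_ncard hsub (Pool.Agent.R532.Nc.nearUpTo_fin Q)
    have hlQ2 : log Q ≤ K' * log y ^ 2 := by
      have h1 : √(log Q / K') ^ 2 ≤ log y ^ 2 :=
        pow_le_pow_left₀ (Real.sqrt_nonneg _) hly 2
      rw [hsq, div_le_iff₀ hK0] at h1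
      linarith
    have hly0 : 0 < log y := by linarith
    have h2 : C * ((Pool.Agent.R532.Nc.nearUpTo a b 1 T).ncard : ℝ) ≤ η / 2 * log y ^ 2 := by
      have h3 : C * ((Pool.Agent.R532.Nc.nearUpTo a b 1 T).ncard : ℝ) ≤ C * (ε * (K' * log y ^ 2)) :=
        mul_le_mul_of_nonneg_left (hc1.trans (mul_le_mul_of_nonneg_left hlQ2 hε0.le)) hC0
      have h4 : C * (ε * (K' * log y ^ 2)) = C / (C + 1) * (η / 2 * log y ^ 2) := by
        rw [hε]; field_simp
      have h5 : C / (C + 1) ≤ 1 := by
        rw [div_le_one (by linarith)]; linarith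
      have h6 : 0 ≤ η / 2 * log y ^ 2 := by positivity
      have h7 := mul_le_mul_of_nonneg_right h5 h6
      linarith
    have h8 : C * log y ≤ η / 2 * log y ^ 2 := by
      have h9 : 2 * C / η ≤ log y := hLC.trans hLy
      rw [div_le_iff₀ hη] at h9
      nlinarith
    linarith
  · obtain ⟨a, h1, h2, h3, h4⟩ := Pool.Agent.H8T.t_FIN Pool.Agent.H8T.t_SEQ Pool.Agent.H8T.t_THE
      Pool.Agent.H8T.t_CNT b u v h hb hu huv hh
    refine ⟨a, h1, h2, h3, fun M => ?_⟩
    obtain ⟨x₀, hx₀⟩ := h4 (max M 1)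
    refine ⟨max x₀ 3, fun x hx => ?_⟩
    have h5 := hx₀ x ((le_max_left _ _).trans hx)
    have hx3 : 3 ≤ x := (le_max_right _ _).trans hx
    have hlx : 0 < log x := log_pos (by linarith)
    rw [pairs_eq]
    have h6 : M * log x ^ 2 ≤ max M 1 * log x ^ 2 :=
      mul_le_mul_of_nonneg_right (le_max_left _ _) (by positivity)
    have h7 : 0 < max M 1 * log x ^ 2 :=
      mul_pos (lt_of_lt_of_le one_pos (le_max_right _ _)) (by positivity)
    refine ⟨Set.finite_of_ncard_pos ?_, h6.trans h5⟩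
    have h8 : (0 : ℝ) < ((Pool.Agent.R532.Nc.pairsUpTo a b 1 x (exp (h x * log x ^ 2))).ncard : ℕ) :=
      lt_of_lt_of_le h7 h5
    exact_mod_cast h8

end Pool.Agent.Results.MP_606be1_nt.TruncationThreshold
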